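import Mathlib

/-!
# Abelian varieties attached to Hilbert newforms: data and known facts

A prime `ℓ` and an embedding of the fields of coefficients into `ℚ̄_ℓ` are fixed; `ρ_f` is the
`ℓ`-adic Galois representation of a Hilbert newform `f` of parallel weight two.
-/

namespace Pool.Agent.N522.PES

/-- Number fields, Hilbert newforms of parallel weight two, abelian varieties. -/
structure Theory where
  /-- number fields -/
  Fld : Type
  /-- the field is totally real -/
  Real : Fld → Prop
  /-- the degree over `ℚ` is odd -/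
  Odd : Fld → Prop
  /-- `Ext F F'`: finite extensions `F → F'` -/
  Ext : Fld → Fld → Type
  /-- the trivial extension -/
  one : ∀ F, Ext F F
  /-- the extension is Galois with solvable group -/
  Solvable : ∀ {F F' : Fld}, Ext F F' → Prop
  /-- Hilbert newforms of parallel weight two (with a finite order central character) -/
  Form : Fld → Type
  /-- `f` is a discrete series at some finite place -/
  Discrete : ∀ {F : Fld}, Form F → Prop
  /-- for `F₀ → F` Galois: every conjugate of `f` under `Gal(F/F₀)` is a twist of `f` -/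
  TwistInvariant : ∀ {F₀ F : Fld}, Ext F₀ F → Form F → Prop
  /-- `[K_f : ℚ]`, the degree of the field of coefficients -/
  deg : ∀ {F : Fld}, Form F → ℕ
  /-- abelian varieties over `F` -/
  AV : Fld → Type
  dim : ∀ {F : Fld}, AV F → ℕ
  Simple : ∀ {F : Fld}, AV F → Prop
  /-- `A'` is an isogeny factor of `A` -/
  Factor : ∀ {F : Fld}, AV F → AV F → Prop
  /-- base change -/
  bc : ∀ {F F' : Fld}, Ext F F' → AV F → AV F'
  /-- Weil restriction -/
  res : ∀ {F F' : Fld}, Ext F F' → AV F' → AV F
  /-- the restriction of `ρ_f` to `G_{F'}` has a non-zero homomorphism to `V_ℓ(B) ⊗ ℚ̄_ℓ` -/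
  Occ : ∀ {F F' : Fld}, Ext F F' → Form F → AV F' → Prop
  /-- `ρ_f` and `ρ_g` have isomorphic restrictions to `G_{F'}` -/
  Same : ∀ {F₁ F₂ F' : Fld}, Ext F₁ F' → Ext F₂ F' → Form F₁ → Form F₂ → Prop
  /-- `L(A, s) = (∏_τ L(f^τ, s))^m` -/
  LPow : ∀ {F : Fld}, Form F → AV F → ℕ → Prop
  /-- the conditions (i)–(iv) of the definition of an associated abelian variety hold for some
  abelian variety -/
  Associated : ∀ {F : Fld}, Form F → Prop

variable {T : Theory}

/-- some simple abelian variety `A_f` over `F` satisfies `L(A_f, s) = ∏_τ L(f^τ, s)` -/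
def HasA {F : T.Fld} (f : T.Form F) : Prop := ∃ A : T.AV F, T.Simple A ∧ T.LPow f A 1

/-- `ρ_f` and `ρ_g` become isomorphic over some number field -/
def PotEquiv {F₁ F₂ : T.Fld} (f : T.Form F₁) (g : T.Form F₂) : Prop :=
  ∃ (F' : T.Fld) (i : T.Ext F₁ F') (j : T.Ext F₂ F'), T.Same i j f g

/-- The rational endomorphism algebra `D` of a simple abelian variety `A` and the space
`H_1(A(ℂ), ℚ)^+` of invariants of complex conjugation at a real place, on which `D` acts:
`[D : ℚ] = m² e` and `dim H_1(A(ℂ), ℚ)^+ = d`. -/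
def EndData (m e d : ℕ) : Prop :=
  ∃ (D V : Type) (_ : DivisionRing D) (_ : Algebra ℚ D) (_ : AddCommGroup V) (_ : Module D V)
    (_ : Module ℚ V) (_ : IsScalarTower ℚ D V),
    Module.finrank ℚ D = m ^ 2 * e ∧ Module.finrank ℚ V = d

/-- Known facts about Galois representations and abelian varieties.

* `frobenius`: Frobenius reciprocity, `V_ℓ(Res B) = Ind V_ℓ(B)`;
* `factor`: Poincaré reducibility;
* `isotypic`: (Faltings) let `A` be simple with `ρ_f` in `V_ℓ(A) ⊗ ℚ̄_ℓ`. The centre of the
  division algebra `D = End(A) ⊗ ℚ` is isomorphic to `K_f`, `V_ℓ(A) ⊗ ℚ̄_ℓ` is the sum of the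
  `ρ_{f^τ}`, each with multiplicity `m`, where `m² = [D : K_f]`; so `dim A = m [K_f : ℚ]`, and the
  invariants of complex conjugation in `H_1(A(ℂ), ℚ)` have dimension `dim A`;
* `occ_of_L`: `V_ℓ(A)` is determined by `L(A, s)`; `occ_bc`: restriction to `G_{F'}`;
* `assoc`: for `A` simple with `L(A, s) = ∏_τ L(f^τ, s)`, a variety isogenous to `A` satisfies
  (i)–(iv) (Faltings, Néron–Ogg–Shafarevich, Carayol), and conversely. -/
structure Facts (T : Theory) : Prop where
  frobenius : ∀ {F F' : T.Fld} (i : T.Ext F F') (f : T.Form F) (B : T.AV F'), T.Occ i f B →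
    T.Occ (T.one F) f (T.res i B)
  factor : ∀ {F : T.Fld} (f : T.Form F) (A : T.AV F), T.Occ (T.one F) f A →
    ∃ A' : T.AV F, T.Simple A' ∧ T.Factor A' A ∧ T.Occ (T.one F) f A'
  isotypic : ∀ {F : T.Fld} (f : T.Form F) (A : T.AV F), T.Real F → T.Simple A →
    T.Occ (T.one F) f A → 0 < T.deg f ∧ ∃ m : ℕ, 0 < m ∧ T.dim A = m * T.deg f ∧ T.LPow f A m ∧
      EndData m (T.deg f) (T.dim A)
  occ_of_L : ∀ {F : T.Fld} (f : T.Form F) (A : T.AV F), T.LPow f A 1 → T.Occ (T.one F) f A
  occ_bc : ∀ {F₁ F₂ F' : T.Fld} (i : T.Ext F₁ F') (j : T.Ext F₂ F') (f : T.Form F₁)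
    (g : T.Form F₂) (A : T.AV F₂), T.Same i j f g → T.Occ (T.one F₂) g A → T.Occ i f (T.bc j A)
  assoc : ∀ {F : T.Fld} (f : T.Form F), T.Real F → (T.Associated f ↔ HasA f)

/-- Known facts about automorphic forms.

* `descent`: let `F/F₀` be a solvable Galois extension of totally real fields and `f` a newform over
  `F` all of whose conjugates are twists of `f`. By Tate's theorem the projective representation of
  `f` lifts to a representation of `G_{F₀}`, which is modular by solvable base change and descent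
  (Langlands; for `f` with complex multiplication: Shimura);
* `known`: `A_g` exists if `[F₀ : ℚ]` is odd or `g` is a discrete series at a finite place (Shimura,
  Carayol, Zhang). -/
structure ModularFacts (T : Theory) : Prop where
  descent : ∀ {F₀ F : T.Fld} (i : T.Ext F₀ F) (f : T.Form F), T.Real F₀ → T.Real F →
    T.Solvable i → T.TwistInvariant i f → ∃ g : T.Form F₀, PotEquiv f g
  known : ∀ {F₀ : T.Fld} (g : T.Form F₀), T.Real F₀ → (T.Odd F₀ ∨ T.Discrete g) → HasA g

end Pool.Agent.N522.PES
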