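import Pool.Agent.N522.PES.Defs

/-!
# The existence of `A_f` is a potential property
-/

namespace Pool.Agent.N522.PES

/-- a division algebra of dimension `m² e` cannot act on a space of dimension `m e` unless
`m = 1` -/
theorem index_one {m e d : ℕ} (hm : 0 < m) (he : 0 < e) (hd : d = m * e) (h : EndData m e d) :
    m = 1 := by
  obtain ⟨D, V, _, _, _, _, _, _, h1, h2⟩ := h
  have h3 : Module.finrank ℚ D * Module.finrank D V = Module.finrank ℚ V :=
    Module.finrank_mul_finrank ℚ D V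
  rw [h1, h2, hd] at h3
  have h4 : (m * e) * (m * Module.finrank D V) = (m * e) * 1 := by
    calc (m * e) * (m * Module.finrank D V) = m ^ 2 * e * Module.finrank D V := by ring
      _ = m * e := h3
      _ = (m * e) * 1 := (mul_one _).symm
  have h5 := Nat.eq_of_mul_eq_mul_left (Nat.mul_pos hm he) h4
  exact Nat.eq_one_of_mul_eq_one_right h5

variable {T : Theory}

theorem hasA_of_occ (hT : Facts T) {F F' : T.Fld} (hF : T.Real F) (i : T.Ext F F')
    (f : T.Form F) (B : T.AV F') (h : T.Occ i f B) : HasA f := by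
  obtain ⟨A, hA, -, ho⟩ := hT.factor f _ (hT.frobenius i f B h)
  obtain ⟨he, m, hm, hd, hL, hE⟩ := hT.isotypic f A hF hA ho
  have h1 := index_one hm he hd hE
  subst h1
  exact ⟨A, hA, hL⟩

/-- `A_f` exists if and only if `ρ_f` occurs potentially in an abelian variety -/
theorem hasA_iff (hT : Facts T) {F : T.Fld} (hF : T.Real F) (f : T.Form F) :
    HasA f ↔ ∃ (F' : T.Fld) (i : T.Ext F F') (B : T.AV F'), T.Occ i f B := by
  constructor
  · rintro ⟨A, -, hL⟩
    exact ⟨F, T.one F, A, hT.occ_of_L f A hL⟩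
  · rintro ⟨F', i, B, h⟩
    exact hasA_of_occ hT hF i f B h

theorem hasA_of_potEquiv (hT : Facts T) {F₁ F₂ : T.Fld} (h1 : T.Real F₁) (f : T.Form F₁)
    (g : T.Form F₂) (h : PotEquiv f g) (hg : HasA g) : HasA f := by
  obtain ⟨F', i, j, hs⟩ := h
  obtain ⟨A, -, hL⟩ := hg
  exact hasA_of_occ hT h1 i f _ (hT.occ_bc i j f g A hs (hT.occ_of_L g A hL))

theorem hasA_of_twistInvariant (hT : Facts T) (hM : ModularFacts T) {F₀ F : T.Fld}
    (i : T.Ext F₀ F) (f : T.Form F) (h0 : T.Real F₀) (hF : T.Real F) (hs : T.Solvable i)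
    (ht : T.TwistInvariant i f) :
    (T.Odd F₀ → HasA f) ∧ ∃ g : T.Form F₀, PotEquiv f g ∧ (HasA g → HasA f) ∧
      (T.Discrete g → HasA f) := by
  obtain ⟨g, hg⟩ := hM.descent i f h0 hF hs ht
  have key : HasA g → HasA f := hasA_of_potEquiv hT hF f g hg
  exact ⟨fun ho => key (hM.known g h0 (Or.inl ho)), g, hg, key,
    fun hd => key (hM.known g h0 (Or.inr hd))⟩

end Pool.Agent.N522.PES
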